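import Mathlib

/-!
# Linear forms on tuples of symmetric matrices
-/

set_option autoImplicit false

open Matrix Filter Topology

namespace Q207.HS

/-- complexification -/
noncomputable def cq {a b : Type} (M : Matrix a b ℚ) : Matrix a b ℂ := M.map (algebraMap ℚ ℂ)

theorem freq_one {ι : Type} [Finite ι] {p : ι → ℕ → Prop} (h : ∃ᶠ n : ℕ in atTop, ∃ σ, p σ n) : ∃ σ, ∃ᶠ n : ℕ in atTop, p σ n := by
  by_contra hcon
  push Not at hcon
  refine h ?_
  have h1 : ∀ σ, ∀ᶠ n in atTop, ¬ p σ n := fun σ => hcon σ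
  filter_upwards [eventually_all.2 h1] with n hn
  rintro ⟨σ, hσ⟩
  exact hn σ hσ

theorem det_shift {g : ℕ} (M : Matrix (Fin g) (Fin g) ℂ) :
    ∀ᶠ n : ℕ in atTop, (M + (n : ℂ) • (1 : Matrix (Fin g) (Fin g) ℂ)).det ≠ 0 := by
  have hu : Tendsto (fun n : ℕ => ((n : ℂ))⁻¹) atTop (𝓝 0) := tendsto_inv_atTop_nhds_zero_nat (𝕜 := ℂ)
  have hA : Continuous fun u : ℂ => (u • M + 1).det := by fun_prop
  have h1 : Tendsto (fun n : ℕ => (((n : ℂ))⁻¹ • M + 1).det) atTop (𝓝 ((0 : ℂ) • M + 1).det) := (hA.tendsto 0).comp hu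
  rw [zero_smul, zero_add, det_one] at h1
  filter_upwards [h1.eventually_ne one_ne_zero, eventually_ne_atTop 0] with n hn hn0
  have hn' : (n : ℂ) ≠ 0 := Nat.cast_ne_zero.2 hn0
  have e1 : M + (n : ℂ) • (1 : Matrix (Fin g) (Fin g) ℂ) = (n : ℂ) • (((n : ℂ))⁻¹ • M + 1) := by
    rw [smul_add, smul_smul, mul_inv_cancel₀ hn', one_smul]
  rw [e1, det_smul]
  exact mul_ne_zero (pow_ne_zero _ hn') hn

variable {k : ℕ} {g : Fin k → ℕ}

/-- the second part of the form -/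
noncomputable def Ps (ℓ : ∀ i, Matrix (Fin (g i)) (Fin (g i)) ℂ →ₗ[ℂ] ℂ) (A : ∀ i, Matrix (Fin (g i)) (Fin (g i)) ℂ) : ℂ :=
  ∑ i, ℓ i (A i).adjugate * ∏ l ∈ Finset.univ.erase i, (A l).det

theorem lim_one (hg : ∀ i, 0 < g i) {T S : ∀ i, Matrix (Fin (g i)) (Fin (g i)) ℂ} {a : ℂ}
    {ℓ : ∀ i, Matrix (Fin (g i)) (Fin (g i)) ℂ →ₗ[ℂ] ℂ} (hS : ∀ i, (S i).det ≠ 0)
    (h : ∃ᶠ n : ℕ in atTop, a * ∏ i, (T i + (n : ℂ) • S i).det - Ps ℓ (fun i => T i + (n : ℂ) • S i) = 0) :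
    a = 0 ∧ Ps ℓ S = 0 := by
  classical
  have hℓ : ∀ i, Continuous (ℓ i) := fun i => (ℓ i).continuous_of_finiteDimensional
  have hu : Tendsto (fun n : ℕ => ((n : ℂ))⁻¹) atTop (𝓝 0) := tendsto_inv_atTop_nhds_zero_nat (𝕜 := ℂ)
  have hA : ∀ i, Continuous fun u : ℂ => u • T i + S i := fun i => by fun_prop
  have hdet : Continuous fun u : ℂ => ∏ i, (u • T i + S i).det := continuous_finsetProd _ fun i _ => (hA i).matrix_det
  have hPs : Continuous fun u : ℂ => Ps ℓ fun i => u • T i + S i := by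
    refine continuous_finsetSum _ fun i _ => ?_
    refine ((hℓ i).comp (hA i).matrix_adjugate).mul ?_
    exact continuous_finsetProd _ fun l _ => (hA l).matrix_det
  have hf1 : Continuous fun u : ℂ => a * ∏ i, (u • T i + S i).det - u * Ps ℓ (fun i => u • T i + S i) :=
    (continuous_const.mul hdet).sub (continuous_id.mul hPs)
  have key : ∃ᶠ n : ℕ in atTop, a * ∏ i, (((n : ℂ))⁻¹ • T i + S i).det - ((n : ℂ))⁻¹ * Ps ℓ (fun i => ((n : ℂ))⁻¹ • T i + S i) = 0 ∧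
      n ≠ 0 := by
    refine (h.and_eventually (eventually_ne_atTop 0)).mono ?_
    rintro n ⟨h1, hn⟩
    refine ⟨?_, hn⟩
    have hn' : (n : ℂ) ≠ 0 := Nat.cast_ne_zero.2 hn
    have e1 : ∀ i, T i + (n : ℂ) • S i = (n : ℂ) • (((n : ℂ))⁻¹ • T i + S i) := fun i => by
      rw [smul_add, smul_smul, mul_inv_cancel₀ hn', one_smul]
    have e2 : ∏ i, (T i + (n : ℂ) • S i).det = (n : ℂ) ^ (∑ i, g i) * ∏ i, (((n : ℂ))⁻¹ • T i + S i).det := by
      rw [← Finset.prod_pow_eq_pow_sum, ← Finset.prod_mul_distrib]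
      refine Finset.prod_congr rfl fun i _ => ?_
      rw [e1, Matrix.det_smul, Fintype.card_fin]
    have e3 : (n : ℂ) * Ps ℓ (fun i => T i + (n : ℂ) • S i) = (n : ℂ) ^ (∑ i, g i) * Ps ℓ (fun i => ((n : ℂ))⁻¹ • T i + S i) := by
      unfold Ps
      rw [Finset.mul_sum, Finset.mul_sum]
      refine Finset.sum_congr rfl fun i _ => ?_
      have e4 : ∏ l ∈ Finset.univ.erase i, (T l + (n : ℂ) • S l).det =
          (n : ℂ) ^ (∑ l ∈ Finset.univ.erase i, g l) * ∏ l ∈ Finset.univ.erase i, (((n : ℂ))⁻¹ • T l + S l).det := by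
        rw [← Finset.prod_pow_eq_pow_sum, ← Finset.prod_mul_distrib]
        refine Finset.prod_congr rfl fun l _ => ?_
        rw [e1, Matrix.det_smul, Fintype.card_fin]
      obtain ⟨g', hg'⟩ : ∃ g', g i = g' + 1 := ⟨g i - 1, by have := hg i; omega⟩
      have e5 : ∑ l, g l = (g' + 1) + ∑ l ∈ Finset.univ.erase i, g l := by
        rw [← hg', Finset.add_sum_erase _ _ (Finset.mem_univ i)]
      have e6 : ℓ i (T i + (n : ℂ) • S i).adjugate = (n : ℂ) ^ g' * ℓ i (((n : ℂ))⁻¹ • T i + S i).adjugate := by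
        rw [e1, Matrix.adjugate_smul, map_smul, Fintype.card_fin, smul_eq_mul, show g i - 1 = g' by omega]
      rw [e4, e5, e6, pow_add, pow_succ]
      ring
    have h2 : (n : ℂ) ^ (∑ i, g i) ≠ 0 := pow_ne_zero _ hn'
    have e7 : (n : ℂ) ^ (∑ i, g i) * (a * ∏ i, (((n : ℂ))⁻¹ • T i + S i).det -
        ((n : ℂ))⁻¹ * Ps ℓ (fun i => ((n : ℂ))⁻¹ • T i + S i)) = 0 := by
      have e8 : (n : ℂ) ^ (∑ i, g i) * (((n : ℂ))⁻¹ * Ps ℓ (fun i => ((n : ℂ))⁻¹ • T i + S i)) =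
          Ps ℓ (fun i => T i + (n : ℂ) • S i) := by
        rw [mul_left_comm, ← e3, ← mul_assoc, inv_mul_cancel₀ hn', one_mul]
      rw [mul_sub, e8, ← h1, e2]
      ring
    exact (mul_eq_zero.1 e7).resolve_left h2
  have hSd : ∏ i, (S i).det ≠ 0 := Finset.prod_ne_zero_iff.2 fun i _ => hS i
  have ha : a = 0 := by
    by_contra hne
    have h1 : Tendsto (fun n : ℕ => a * ∏ i, (((n : ℂ))⁻¹ • T i + S i).det - ((n : ℂ))⁻¹ * Ps ℓ (fun i => ((n : ℂ))⁻¹ • T i + S i)) atTop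
        (𝓝 (a * ∏ i, ((0 : ℂ) • T i + S i).det - 0 * Ps ℓ (fun i => (0 : ℂ) • T i + S i))) := (hf1.tendsto 0).comp hu
    simp only [zero_smul, zero_add, zero_mul, sub_zero] at h1
    have h2 := h1.eventually_ne (mul_ne_zero hne hSd)
    obtain ⟨n, h3, h4⟩ := (key.and_eventually h2).exists
    exact h4 h3.1
  refine ⟨ha, ?_⟩
  by_contra hne
  have h1 : Tendsto (fun n : ℕ => Ps ℓ (fun i => ((n : ℂ))⁻¹ • T i + S i)) atTop (𝓝 (Ps ℓ (fun i => (0 : ℂ) • T i + S i))) :=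
    (hPs.tendsto 0).comp hu
  simp only [zero_smul, zero_add] at h1
  have h2 := h1.eventually_ne hne
  obtain ⟨n, ⟨h3, hn⟩, h4⟩ := (key.and_eventually h2).exists
  rw [ha, zero_mul, zero_sub, neg_eq_zero] at h3
  exact h4 ((mul_eq_zero.1 h3).resolve_left (inv_ne_zero (Nat.cast_ne_zero.2 hn)))

theorem lim_all {ι : Type} [Fintype ι] (hg : ∀ i, 0 < g i) {T S : ∀ i, Matrix (Fin (g i)) (Fin (g i)) ℂ} {a : ι → ℂ}
    {ℓ : ι → ∀ i, Matrix (Fin (g i)) (Fin (g i)) ℂ →ₗ[ℂ] ℂ} (hS : ∀ i, (S i).det ≠ 0)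
    (h : ∀ n : ℕ, ∏ σ, (a σ * ∏ i, (T i + (n : ℂ) • S i).det - Ps (ℓ σ) (fun i => T i + (n : ℂ) • S i)) = 0) :
    ∃ σ, a σ = 0 ∧ Ps (ℓ σ) S = 0 := by
  obtain ⟨σ, hσ⟩ := freq_one (p := fun σ n => a σ * ∏ i, (T i + (n : ℂ) • S i).det - Ps (ℓ σ) (fun i => T i + (n : ℂ) • S i) = 0)
    (Frequently.of_forall fun n => by
      obtain ⟨σ, -, h1⟩ := Finset.prod_eq_zero_iff.1 (h n)
      exact ⟨σ, h1⟩)
  exact ⟨σ, lim_one hg hS hσ⟩

theorem adj_inv {g : ℕ} {R : Matrix (Fin g) (Fin g) ℚ} (hR : R.det ≠ 0) :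
    (cq R⁻¹).adjugate = (cq R⁻¹).det • cq R := by
  have hRu : IsUnit R.det := Ne.isUnit hR
  have h1 : cq R⁻¹ * cq R = 1 := by
    unfold cq
    rw [← Matrix.map_mul, Matrix.nonsing_inv_mul _ hRu]
    exact Matrix.map_one _ (map_zero _) (map_one _)
  calc (cq R⁻¹).adjugate = (cq R⁻¹).adjugate * (cq R⁻¹ * cq R) := by rw [h1, Matrix.mul_one]
    _ = (cq R⁻¹).det • cq R := by rw [← Matrix.mul_assoc, Matrix.adjugate_mul, Matrix.smul_mul, Matrix.one_mul]

theorem one_form {ι : Type} [Fintype ι] {a : ι → ℂ} {ℓ : ι → ∀ i, Matrix (Fin (g i)) (Fin (g i)) ℂ →ₗ[ℂ] ℂ}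
    (h : ∀ S : ∀ i, Matrix (Fin (g i)) (Fin (g i)) ℚ, (∀ i, (S i)ᵀ = S i) → (∀ i, (S i).det ≠ 0) →
      ∃ σ, a σ = 0 ∧ Ps (ℓ σ) (fun i => cq (S i)) = 0) :
    ∃ σ, a σ = 0 ∧ ∀ M : ∀ i, Matrix (Fin (g i)) (Fin (g i)) ℂ, (∀ i, (M i)ᵀ = M i) → ∑ i, ℓ σ i (M i) = 0 := by
  classical
  -- rational symmetric matrices
  let E : Submodule ℚ (∀ i, Matrix (Fin (g i)) (Fin (g i)) ℚ) :=
    { carrier := {M | ∀ i, (M i)ᵀ = M i}
      add_mem' := fun {x y} hx hy i => by
        show (x i + y i)ᵀ = x i + y i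
        rw [transpose_add, hx i, hy i]
      zero_mem' := fun i => transpose_zero
      smul_mem' := fun q x hx i => by
        show (q • x i)ᵀ = q • x i
        rw [transpose_smul, hx i] }
  let p : {σ : ι // a σ = 0} → Submodule ℚ E := fun σ =>
    { carrier := {M | ∑ i, ℓ σ.1 i (cq (M.1 i)) = 0}
      add_mem' := fun {x y} hx hy => by
        have e1 : ∀ i, cq (x.1 i + y.1 i) = cq (x.1 i) + cq (y.1 i) := fun i => Matrix.map_add _ (map_add _) _ _
        show ∑ i, ℓ σ.1 i (cq (x.1 i + y.1 i)) = 0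
        simp only [e1, map_add, Finset.sum_add_distrib]
        rw [show ∑ i, ℓ σ.1 i (cq (x.1 i)) = 0 from hx, show ∑ i, ℓ σ.1 i (cq (y.1 i)) = 0 from hy, add_zero]
      zero_mem' := by
        have e1 : ∀ i, cq (0 : Matrix (Fin (g i)) (Fin (g i)) ℚ) = 0 := fun i => Matrix.map_zero _ (map_zero _)
        show ∑ i, ℓ σ.1 i (cq (0 : Matrix (Fin (g i)) (Fin (g i)) ℚ)) = 0
        simp only [e1, map_zero, Finset.sum_const_zero]
      smul_mem' := fun q x hx => by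
        have e1 : ∀ i, cq (q • x.1 i) = (algebraMap ℚ ℂ q) • cq (x.1 i) := fun i => by
          ext a b
          simp [cq]
        show ∑ i, ℓ σ.1 i (cq (q • x.1 i)) = 0
        simp only [e1, map_smul, smul_eq_mul, ← Finset.mul_sum]
        rw [show ∑ i, ℓ σ.1 i (cq (x.1 i)) = 0 from hx, mul_zero] }
  have hcov : ⋃ σ, (p σ : Set E) = Set.univ := by
    refine Set.eq_univ_of_forall fun M => ?_
    have h1 : ∃ᶠ n : ℕ in atTop, ∃ σ : {σ : ι // a σ = 0}, ∑ i, ℓ σ.1 i (cq (M.1 i)) + (n : ℂ) * ∑ i, ℓ σ.1 i 1 = 0 := by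
      refine ((eventually_all.2 fun i => det_shift (cq (M.1 i))).mono fun n hn => ?_).frequently
      set R : ∀ i, Matrix (Fin (g i)) (Fin (g i)) ℚ := fun i => M.1 i + (n : ℚ) • 1 with hR
      have e1 : ∀ i, cq (R i) = cq (M.1 i) + (n : ℂ) • 1 := by
        intro i
        ext a b
        simp only [cq, hR, Matrix.map_apply, Matrix.add_apply, Matrix.smul_apply, Matrix.one_apply, smul_eq_mul, map_add]
        split_ifs <;> simp
      have hRd : ∀ i, (R i).det ≠ 0 := by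
        intro i h0
        apply hn i
        rw [← e1]
        show ((R i).map (algebraMap ℚ ℂ)).det = 0
        rw [← RingHom.mapMatrix_apply, ← RingHom.map_det, h0, map_zero]
      have hRs : ∀ i, (R i)ᵀ = R i := by
        intro i
        rw [hR]
        show (M.1 i + (n : ℚ) • 1)ᵀ = _
        rw [transpose_add, transpose_smul, transpose_one, M.2 i]
      have hinv : ∀ i, ((R i)⁻¹).det ≠ 0 := fun i => by
        rw [Matrix.det_nonsing_inv, Ring.inverse_eq_inv']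
        exact inv_ne_zero (hRd i)
      obtain ⟨σ, h2, h3⟩ := h (fun i => (R i)⁻¹) (fun i => by rw [transpose_nonsing_inv, hRs]) hinv
      refine ⟨⟨σ, h2⟩, ?_⟩
      have hcd : ∀ i, (cq (R i)⁻¹).det ≠ 0 := by
        intro i h0
        apply hinv i
        have e2 : (cq (R i)⁻¹).det = algebraMap ℚ ℂ ((R i)⁻¹).det := by
          show (((R i)⁻¹).map (algebraMap ℚ ℂ)).det = _
          rw [← RingHom.mapMatrix_apply, ← RingHom.map_det]
        rw [e2, map_eq_zero] at h0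
        exact h0
      have e3 : Ps (ℓ σ) (fun i => cq (R i)⁻¹) = (∏ i, (cq (R i)⁻¹).det) * ∑ i, ℓ σ i (cq (R i)) := by
        unfold Ps
        rw [Finset.mul_sum]
        refine Finset.sum_congr rfl fun i _ => ?_
        rw [adj_inv (hRd i), map_smul, smul_eq_mul, ← Finset.mul_prod_erase _ _ (Finset.mem_univ i)]
        ring
      rw [e3] at h3
      have h5 := (mul_eq_zero.1 h3).resolve_left (Finset.prod_ne_zero_iff.2 fun i _ => hcd i)
      simp only [e1, map_add, map_smul, smul_eq_mul, Finset.sum_add_distrib, ← Finset.mul_sum] at h5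
      exact h5
    obtain ⟨σ, hσ⟩ := freq_one h1
    obtain ⟨n, hn⟩ := hσ.exists
    obtain ⟨m, hm, hnm⟩ := (hσ.and_eventually (eventually_gt_atTop n)).exists
    have h2 : ((m : ℂ) - n) * ∑ i, ℓ σ.1 i 1 = 0 := by linear_combination hm - hn
    have h3 : ∑ i, ℓ σ.1 i 1 = 0 := (mul_eq_zero.1 h2).resolve_left (by
      rw [sub_eq_zero]
      exact_mod_cast (Nat.ne_of_gt hnm))
    rw [h3, mul_zero, add_zero] at hn
    exact Set.mem_iUnion.2 ⟨σ, hn⟩
  obtain ⟨σ, hσ⟩ := Subspace.exists_eq_top_of_iUnion_eq_univ hcov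
  refine ⟨σ.1, σ.2, fun M hM => ?_⟩
  refine Finset.sum_eq_zero fun i0 _ => ?_
  have h1 : ∀ i j : Fin (g i0), ℓ σ.1 i0 (Matrix.single i j 1 + Matrix.single j i 1) = 0 := by
    intro i j
    have h2 : (⟨Pi.single i0 (Matrix.single i j 1 + Matrix.single j i 1), by
      intro l
      by_cases hl : l = i0
      · subst hl
        rw [Pi.single_eq_same, transpose_add, Matrix.transpose_single, Matrix.transpose_single, add_comm]
      · rw [Pi.single_eq_of_ne hl, transpose_zero]⟩ : E) ∈ p σ := by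
      rw [hσ]
      trivial
    have h3 : ∑ l, ℓ σ.1 l (cq ((Pi.single i0 (Matrix.single i j (1 : ℚ) + Matrix.single j i 1) :
        ∀ i, Matrix (Fin (g i)) (Fin (g i)) ℚ) l)) = 0 := h2
    rw [Finset.sum_eq_single i0] at h3
    · rw [Pi.single_eq_same] at h3
      have e1 : cq (Matrix.single i j (1 : ℚ) + Matrix.single j i 1) = Matrix.single i j 1 + Matrix.single j i 1 := by
        ext a b
        simp only [cq, Matrix.map_apply, Matrix.add_apply, Matrix.single_apply, map_add]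
        split_ifs <;> simp
      rw [← e1]
      exact h3
    · intro l _ hl
      rw [Pi.single_eq_of_ne hl]
      have e1 : cq (0 : Matrix (Fin (g l)) (Fin (g l)) ℚ) = 0 := Matrix.map_zero _ (map_zero _)
      rw [e1, map_zero]
    · intro hl
      exact absurd (Finset.mem_univ _) hl
  have h2 : (2 : ℂ) • M i0 = ∑ i, ∑ j, M i0 i j • (Matrix.single i j (1 : ℂ) + Matrix.single j i 1) := by
    have e1 : M i0 = ∑ i, ∑ j, Matrix.single i j (M i0 i j) := Matrix.matrix_eq_sum_single (M i0)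
    have e2 : (M i0)ᵀ = ∑ i, ∑ j, Matrix.single j i (M i0 i j) := by
      conv_lhs => rw [e1]
      rw [Matrix.transpose_sum]
      refine Finset.sum_congr rfl fun i _ => ?_
      rw [Matrix.transpose_sum]
      refine Finset.sum_congr rfl fun j _ => ?_
      rw [Matrix.transpose_single]
    have e3 : ∀ i j : Fin (g i0), M i0 i j • (Matrix.single i j (1 : ℂ) + Matrix.single j i 1) =
        Matrix.single i j (M i0 i j) + Matrix.single j i (M i0 i j) := by
      intro i j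
      rw [smul_add, Matrix.smul_single, Matrix.smul_single, smul_eq_mul, mul_one]
    simp only [e3, Finset.sum_add_distrib]
    rw [← e1, ← e2, hM, two_smul]
  have h3 : ℓ σ.1 i0 ((2 : ℂ) • M i0) = 0 := by
    rw [h2, map_sum]
    refine Finset.sum_eq_zero fun i _ => ?_
    rw [map_sum]
    refine Finset.sum_eq_zero fun j _ => ?_
    rw [map_smul, h1, smul_zero]
  rw [map_smul, smul_eq_mul] at h3
  exact (mul_eq_zero.1 h3).resolve_left two_ne_zero

end Q207.HS
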