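import Mathlib

/-!
# Norms of linear forms
-/

set_option autoImplicit false

namespace Q207.HS

theorem det_deg {σ R : Type} [CommRing R] {n : Type} [Fintype n] [DecidableEq n] (A : Matrix n n (MvPolynomial σ R)) {m : ℕ}
    (hA : ∀ a b, (A a b).totalDegree ≤ m) : A.det.totalDegree ≤ Fintype.card n * m := by
  rw [Matrix.det_apply]
  refine (MvPolynomial.totalDegree_finsetSum _ _).trans (Finset.sup_le fun p _ => ?_)
  have h1 : (Equiv.Perm.sign p • ∏ i, A (p i) i).totalDegree ≤ (∏ i, A (p i) i).totalDegree := by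
    rcases Int.units_eq_one_or (Equiv.Perm.sign p) with h | h
    · rw [h, one_smul]
    · rw [h, Units.neg_smul, one_smul, MvPolynomial.totalDegree_neg]
  refine h1.trans ((MvPolynomial.totalDegree_finsetProd _ _).trans ?_)
  refine (Finset.sum_le_sum fun i _ => hA (p i) i).trans ?_
  simp

/-- the norm of a linear form is a polynomial with rational coefficients -/
theorem norm_form {n : ℕ} (K : IntermediateField ℚ ℂ) [FiniteDimensional ℚ K] (c : Fin n → K) :
    ∃ F : MvPolynomial (Fin n) ℚ, F.totalDegree ≤ Module.finrank ℚ K ∧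
      ∀ v : Fin n → ℂ, MvPolynomial.aeval v F = ∏ σ : K →ₐ[ℚ] ℂ, ∑ j, σ (c j) * v j := by
  classical
  let b := Module.finBasis ℚ K
  let M : Fin n → Matrix (Fin (Module.finrank ℚ K)) (Fin (Module.finrank ℚ K)) ℚ := fun j => Algebra.leftMulMatrix b (c j)
  let A : Matrix (Fin (Module.finrank ℚ K)) (Fin (Module.finrank ℚ K)) (MvPolynomial (Fin n) ℚ) :=
    Matrix.of fun a a' => ∑ j, MvPolynomial.C (M j a a') * MvPolynomial.X j
  refine ⟨A.det, ?_, ?_⟩
  · refine (det_deg A (m := 1) fun a a' => ?_).trans (by simp)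
    show (∑ j, MvPolynomial.C (M j a a') * MvPolynomial.X j : MvPolynomial (Fin n) ℚ).totalDegree ≤ 1
    refine (MvPolynomial.totalDegree_finsetSum _ _).trans (Finset.sup_le fun j _ => ?_)
    refine (MvPolynomial.totalDegree_mul _ _).trans ?_
    rw [MvPolynomial.totalDegree_C, MvPolynomial.totalDegree_X, zero_add]
  · let F1 : MvPolynomial (Fin n) ℂ := MvPolynomial.map (algebraMap ℚ ℂ) A.det
    let F2 : MvPolynomial (Fin n) ℂ := ∏ σ : K →ₐ[ℚ] ℂ, ∑ j, MvPolynomial.C (σ (c j)) * MvPolynomial.X j
    have hF : F1 = F2 := by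
      refine MvPolynomial.funext_set (fun _ => Set.range fun q : ℚ => (q : ℂ)) (fun _ => ?_) ?_
      · exact Set.infinite_range_of_injective Rat.cast_injective
      · intro v hv
        choose q hq using fun j => hv j (Set.mem_univ j)
        have e1 : MvPolynomial.eval v F1 = algebraMap ℚ ℂ (MvPolynomial.eval q A.det) := by
          show MvPolynomial.eval v (MvPolynomial.map (algebraMap ℚ ℂ) A.det) = _
          rw [MvPolynomial.eval_map]
          have h1 : v = algebraMap ℚ ℂ ∘ q := by
            funext j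
            exact (hq j).symm
          rw [h1, MvPolynomial.eval₂_comp]
        have e2 : MvPolynomial.eval q A.det = Algebra.norm ℚ (∑ j, q j • c j) := by
          rw [Algebra.norm_eq_matrix_det b, RingHom.map_det]
          congr 1
          rw [map_sum]
          ext a a'
          rw [RingHom.mapMatrix_apply, Matrix.map_apply, Matrix.sum_apply]
          show MvPolynomial.eval q (∑ j, MvPolynomial.C (M j a a') * MvPolynomial.X j) = _
          rw [map_sum]
          refine Finset.sum_congr rfl fun j _ => ?_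
          rw [map_mul, MvPolynomial.eval_C, MvPolynomial.eval_X, map_smul, Matrix.smul_apply, smul_eq_mul, mul_comm]
        rw [e1, e2, Algebra.norm_eq_prod_embeddings (K := ℚ) (L := K) (E := ℂ)]
        show _ = MvPolynomial.eval v (∏ σ : K →ₐ[ℚ] ℂ, ∑ j, MvPolynomial.C (σ (c j)) * MvPolynomial.X j)
        rw [map_prod]
        refine Finset.prod_congr rfl fun σ _ => ?_
        rw [map_sum, map_sum]
        refine Finset.sum_congr rfl fun j _ => ?_
        rw [Rat.smul_def, map_mul, map_mul, map_ratCast, MvPolynomial.eval_C, MvPolynomial.eval_X, mul_comm, ← hq j]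
    intro v
    have h1 : MvPolynomial.aeval v A.det = MvPolynomial.eval v F1 := by
      show _ = MvPolynomial.eval v (MvPolynomial.map (algebraMap ℚ ℂ) A.det)
      rw [MvPolynomial.eval_map]
      rfl
    rw [h1, hF]
    show MvPolynomial.eval v (∏ σ : K →ₐ[ℚ] ℂ, ∑ j, MvPolynomial.C (σ (c j)) * MvPolynomial.X j) = _
    rw [map_prod]
    refine Finset.prod_congr rfl fun σ _ => ?_
    rw [map_sum]
    refine Finset.sum_congr rfl fun j _ => ?_
    rw [map_mul, MvPolynomial.eval_C, MvPolynomial.eval_X]

end Q207.HS
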