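import Pool.Agent.Q207.HS.Tr
import Pool.Agent.Q207.HS.Nm
import Pool.Agent.Q207.HS.Lin
import Pool.Agent.Q207.AJ.Main

/-!
# The Harish-Chandra coordinates as polynomials in the periods
-/

set_option autoImplicit false

open Matrix PowerSeries Filter

namespace Q207.HS

open Pool.Agent.Y120.R (Fam p1 Sat pn)
open Q207.AJ (pm Pr tr tr_eval Pr_sat)

/-- degrees after a substitution -/
theorem deg_sub {σ τ R : Type} [CommRing R] {f : σ → MvPolynomial τ R} {m : ℕ} (hf : ∀ i, (f i).totalDegree ≤ m)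
    (p : MvPolynomial σ R) : (MvPolynomial.aeval f p).totalDegree ≤ p.totalDegree * m := by
  classical
  rw [MvPolynomial.aeval_def, MvPolynomial.eval₂_eq]
  refine (MvPolynomial.totalDegree_finsetSum _ _).trans (Finset.sup_le fun d hd => ?_)
  refine (MvPolynomial.totalDegree_mul _ _).trans ?_
  rw [show (algebraMap R (MvPolynomial τ R)) = MvPolynomial.C from rfl, MvPolynomial.totalDegree_C, zero_add]
  refine (MvPolynomial.totalDegree_finsetProd _ _).trans ?_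
  have h1 : ∑ i ∈ d.support, (f i ^ d i).totalDegree ≤ ∑ i ∈ d.support, d i * m :=
    Finset.sum_le_sum fun i _ => (MvPolynomial.totalDegree_pow _ _).trans (Nat.mul_le_mul_left _ (hf i))
  refine h1.trans ?_
  rw [← Finset.sum_mul]
  refine Nat.mul_le_mul_right _ ?_
  exact MvPolynomial.le_totalDegree hd

section gen
variable {k n : ℕ} {g : Fin k → ℕ} {R R' : Type} [CommRing R] [CommRing R']

section dat
variable (T0 Y : ∀ i, Matrix (Fin (g i)) (Fin (g i)) R) (lam : Fin n → ∀ i, Matrix (Fin (g i)) (Fin (g i)) R)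
  (Om : ∀ i, Matrix (Fin (g i) ⊕ Fin (g i)) (Fin (g i)) R)

/-- `A - \bar τ₀ B` -/
noncomputable def NN (i : Fin k) : Matrix (Fin (g i)) (Fin (g i)) R :=
  (Om i).submatrix Sum.inl id - T0 i * (Om i).submatrix Sum.inr id

/-- the numerator of the Harish-Chandra coordinate -/
noncomputable def UU (i : Fin k) : Matrix (Fin (g i)) (Fin (g i)) R :=
  (NN T0 Om i).det • Y i - Y i * (Om i).submatrix Sum.inr id * (NN T0 Om i).adjugate * Y i

/-- the numerators of the values of the linear forms -/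
noncomputable def vv (j : Fin n) : R :=
  ∑ i, (∑ a, ∑ b, lam j i a b * UU T0 Y Om i a b) * ∏ l ∈ Finset.univ.erase i, (NN T0 Om l).det

end dat

section nat
variable (φ : R →+* R') (T0 Y : ∀ i, Matrix (Fin (g i)) (Fin (g i)) R) (lam : Fin n → ∀ i, Matrix (Fin (g i)) (Fin (g i)) R)
  (Om : ∀ i, Matrix (Fin (g i) ⊕ Fin (g i)) (Fin (g i)) R)

theorem NN_map (i : Fin k) : (NN T0 Om i).map φ = NN (fun i => (T0 i).map φ) (fun i => (Om i).map φ) i := by
  unfold NN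
  rw [Matrix.map_sub _ (map_sub φ), Matrix.map_mul]
  rfl

theorem UU_map (i : Fin k) : (UU T0 Y Om i).map φ =
    UU (fun i => (T0 i).map φ) (fun i => (Y i).map φ) (fun i => (Om i).map φ) i := by
  unfold UU
  rw [Matrix.map_sub _ (map_sub φ), Matrix.map_mul, Matrix.map_mul, Matrix.map_mul, ← NN_map]
  have e1 : ((NN T0 Om i).map φ).adjugate = (NN T0 Om i).adjugate.map φ := (RingHom.map_adjugate φ _).symm
  have e2 : ((NN T0 Om i).map φ).det = φ (NN T0 Om i).det := (RingHom.map_det φ _).symm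
  rw [e1, e2]
  congr 1
  ext a b
  simp [Matrix.smul_apply]

theorem vv_map (j : Fin n) : φ (vv T0 Y lam Om j) =
    vv (fun i => (T0 i).map φ) (fun i => (Y i).map φ) (fun j i => (lam j i).map φ) (fun i => (Om i).map φ) j := by
  unfold vv
  rw [map_sum]
  refine Finset.sum_congr rfl fun i _ => ?_
  rw [map_mul, map_sum, map_prod]
  congr 1
  · refine Finset.sum_congr rfl fun a _ => ?_
    rw [map_sum]
    refine Finset.sum_congr rfl fun b _ => ?_
    rw [map_mul, ← UU_map]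
    rfl
  · refine Finset.prod_congr rfl fun l _ => ?_
    rw [← NN_map]
    exact RingHom.map_det φ _

end nat

/-- the constants -/
abbrev Ws (g : Fin k → ℕ) (n : ℕ) : Type :=
  Σ i, (Fin (g i) × Fin (g i)) ⊕ ((Fin (g i) × Fin (g i)) ⊕ (Fin n × (Fin (g i) × Fin (g i))))

/-- the entries of the symmetries -/
abbrev Gs (g : Fin k → ℕ) : Type := Σ i, (Fin (g i) ⊕ Fin (g i)) × (Fin (g i) ⊕ Fin (g i))

/-- the entries of the period matrices -/
abbrev Zs (g : Fin k → ℕ) : Type := Σ i, (Fin (g i) ⊕ Fin (g i)) × Fin (g i)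

/-- all in terms of the variables -/
noncomputable def VV (w : Ws g n → R) (γ : Gs g → R) (z : Zs g → R) (j : Fin n) : R :=
  vv (fun i => Matrix.of fun a b => w ⟨i, Sum.inl (a, b)⟩) (fun i => Matrix.of fun a b => w ⟨i, Sum.inr (Sum.inl (a, b))⟩)
    (fun j i => Matrix.of fun a b => w ⟨i, Sum.inr (Sum.inr (j, (a, b)))⟩)
    (fun i => (Matrix.of fun a b => γ ⟨i, (a, b)⟩) * (Matrix.of fun a b => z ⟨i, (a, b)⟩)) j

theorem VV_map (φ : R →+* R') (w : Ws g n → R) (γ : Gs g → R) (z : Zs g → R) (j : Fin n) :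
    φ (VV w γ z j) = VV (fun x => φ (w x)) (fun x => φ (γ x)) (fun x => φ (z x)) j := by
  unfold VV
  rw [vv_map]
  congr 1
  funext i
  rw [Matrix.map_mul]
  rfl

/-- the universal polynomial -/
noncomputable def Un (g : Fin k → ℕ) (n : ℕ) (j : Fin n) : MvPolynomial (Ws g n ⊕ (Gs g ⊕ Zs g)) ℚ :=
  VV (fun x => MvPolynomial.X (Sum.inl x)) (fun x => MvPolynomial.X (Sum.inr (Sum.inl x)))
    (fun x => MvPolynomial.X (Sum.inr (Sum.inr x))) j

/-- the bound for the degrees -/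
noncomputable def eU (g : Fin k → ℕ) (n : ℕ) : ℕ := Finset.univ.sup fun j : Fin n => (Un g n j).totalDegree

/-- the polynomial for a given rational symmetry -/
noncomputable def Ug (g : Fin k → ℕ) (n : ℕ) (γ : Gs g → ℚ) (j : Fin n) : MvPolynomial (Ws g n ⊕ Zs g) ℚ :=
  MvPolynomial.aeval (Sum.elim (fun x => MvPolynomial.X (Sum.inl x)) (Sum.elim (fun x => MvPolynomial.C (γ x))
    (fun x => MvPolynomial.X (Sum.inr x)))) (Un g n j)

theorem Ug_deg (γ : Gs g → ℚ) (j : Fin n) : (Ug g n γ j).totalDegree ≤ eU g n := by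
  have h1 : (Un g n j).totalDegree ≤ eU g n := Finset.le_sup (f := fun j : Fin n => (Un g n j).totalDegree) (Finset.mem_univ j)
  refine (deg_sub (m := 1) (fun x => ?_) _).trans (by rw [mul_one]; exact h1)
  rcases x with x | x | x
  · exact (MvPolynomial.totalDegree_X _).le
  · simp only [Sum.elim_inr, Sum.elim_inl, MvPolynomial.totalDegree_C]
    exact Nat.zero_le _
  · exact (MvPolynomial.totalDegree_X _).le

theorem Ug_eval (γ : Gs g → ℚ) (w : Ws g n → ℂ) (z : Zs g → ℂ) (j : Fin n) :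
    MvPolynomial.aeval (Sum.elim w z) (Ug g n γ j) = VV w (fun x => ((γ x : ℚ) : ℂ)) z j := by
  unfold Ug Un
  have h1 := VV_map (((MvPolynomial.aeval (Sum.elim w z) : MvPolynomial (Ws g n ⊕ Zs g) ℚ →ₐ[ℚ] ℂ).comp
    (MvPolynomial.aeval (Sum.elim (fun x => MvPolynomial.X (Sum.inl x)) (Sum.elim (fun x => MvPolynomial.C (γ x))
    (fun x => MvPolynomial.X (Sum.inr x)))) : MvPolynomial (Ws g n ⊕ (Gs g ⊕ Zs g)) ℚ →ₐ[ℚ] MvPolynomial (Ws g n ⊕ Zs g) ℚ) :
      MvPolynomial (Ws g n ⊕ (Gs g ⊕ Zs g)) ℚ →ₐ[ℚ] ℂ).toRingHom)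
    (fun x => MvPolynomial.X (Sum.inl x)) (fun x => MvPolynomial.X (Sum.inr (Sum.inl x)))
    (fun x => MvPolynomial.X (Sum.inr (Sum.inr x))) j
  refine Eq.trans h1 ?_
  congr 1
  · funext x
    simp
  · funext x
    simp
  · funext x
    simp

end gen

section good
variable {k n : ℕ} {g r : Fin k → ℕ}

/-- the property of the good points -/
def Good (D : ℕ) (h : ∀ i, Fin (r i) → ℚ⟦X⟧) (P : ∀ i, (Fin (g i) ⊕ Fin (g i)) → Fin (g i) → MvPolynomial (Option (Fin (r i))) ℂ)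
    (T0 Y : ∀ i, Matrix (Fin (g i)) (Fin (g i)) ℂ) (lam : Fin n → ∀ i, Matrix (Fin (g i)) (Fin (g i)) ℂ) (t : Fin k → ℕ) : Prop :=
  ∀ (K : IntermediateField ℚ ℂ) [FiniteDimensional ℚ K], Module.finrank ℚ K ≤ D → ∀ (c : Fin n → K)
    (γ : ∀ i, Matrix (Fin (g i) ⊕ Fin (g i)) (Fin (g i) ⊕ Fin (g i)) ℚ),
    ∑ j, (c j : ℂ) * vv T0 Y lam (fun i => cq (γ i) * pm (h i) (P i) (t i : ℝ)) j = 0 →
    ∀ u : ∀ i, Matrix (Fin (g i) ⊕ Fin (g i)) (Fin (g i) ⊕ Fin (g i)) ℂ, (∀ i, Pr (h i) (P i) (u i)) →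
      ∏ σ : K →ₐ[ℚ] ℂ, ∑ j, σ (c j) * vv T0 Y lam (fun i => cq (γ i) * (u i * pm (h i) (P i) (t i : ℝ))) j = 0

theorem good_count (D e : ℕ) (h : ∀ i, Fin (r i) → ℚ⟦X⟧) (hF : ∀ i δ, Fam δ (h i)) :
    ∃ c C : ℝ, 0 < c ∧ 0 ≤ C ∧ ∀ P : ∀ i, (Fin (g i) ⊕ Fin (g i)) → Fin (g i) → MvPolynomial (Option (Fin (r i))) ℂ,
      (∀ i a b, (P i a b).totalDegree ≤ e) → ∀ (T0 Y : ∀ i, Matrix (Fin (g i)) (Fin (g i)) ℂ)
      (lam : Fin n → ∀ i, Matrix (Fin (g i)) (Fin (g i)) ℂ) (x : Fin k → ℕ) (N : ℕ), 1 ≤ N → ∀ S : Finset (Fin k → ℕ),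
      (∀ t ∈ S, (∀ i, x i < t i ∧ t i ≤ x i + N) ∧ ¬ Good D h P T0 Y lam t) →
      (S.card : ℝ) ≤ C * (N : ℝ) ^ (k - 1) * ∑ i, (1 + N / ((x i : ℝ) + N) ^ c) := by
  classical
  obtain ⟨c, C, hc, hC, hmain⟩ := trans (ν := fun i => (Fin (g i) ⊕ Fin (g i)) × Fin (g i)) (h := h) (Ws g n)
    (D * eU g n) e fun i => hF i _
  refine ⟨c, C, hc, hC, fun P hP T0 Y lam x N hN S hS => ?_⟩
  let w : Ws g n → ℂ := fun y => Sum.elim (fun v => T0 y.1 v.1 v.2) (Sum.elim (fun v => Y y.1 v.1 v.2)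
    (fun v => lam v.1 y.1 v.2.1 v.2.2)) y.2
  have hVV : ∀ (γ : ∀ i, Matrix (Fin (g i) ⊕ Fin (g i)) (Fin (g i) ⊕ Fin (g i)) ℚ) (z : Zs g → ℂ) (j : Fin n),
      VV w (fun y => ((γ y.1 y.2.1 y.2.2 : ℚ) : ℂ)) z j =
        vv T0 Y lam (fun i => cq (γ i) * Matrix.of fun a b => z ⟨i, (a, b)⟩) j := fun γ z j => rfl
  refine hmain (fun i v => P i v.1 v.2) (fun i v => hP i _ _) w x N hN S fun t ht => ?_
  obtain ⟨hbox, hbad⟩ := hS t ht
  unfold Good at hbad
  push Not at hbad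
  obtain ⟨K, hK, hKD, c', γ, h0, u, hu, hne⟩ := hbad
  obtain ⟨F, hFd, hFe⟩ := norm_form K c'
  refine ⟨hbox, MvPolynomial.aeval (fun j => Ug g n (fun y => γ y.1 y.2.1 y.2.2) j) F, ?_, ?_, fun i => tr (P i) (u i),
    fun i => Pr_sat (hu i), ?_⟩
  · refine (deg_sub (fun j => Ug_deg _ j) F).trans ?_
    exact Nat.mul_le_mul_right _ (hFd.trans hKD)
  · have e1 : MvPolynomial.aeval (Sum.elim w (pn h (fun i v => P i v.1 v.2) fun i => (t i : ℝ)))
        (MvPolynomial.aeval (fun j => Ug g n (fun y => γ y.1 y.2.1 y.2.2) j) F) =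
        MvPolynomial.aeval (fun j => vv T0 Y lam (fun i => cq (γ i) * pm (h i) (P i) (t i : ℝ)) j) F := by
      rw [← AlgHom.comp_apply, MvPolynomial.comp_aeval]
      congr 2
      funext j
      rw [Ug_eval, hVV]
      rfl
    rw [e1, hFe]
    refine Finset.prod_eq_zero (Finset.mem_univ K.val) ?_
    exact h0
  · have e1 : MvPolynomial.aeval (Sum.elim w (pn h (fun i => tr (P i) (u i)) fun i => (t i : ℝ)))
        (MvPolynomial.aeval (fun j => Ug g n (fun y => γ y.1 y.2.1 y.2.2) j) F) =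
        MvPolynomial.aeval (fun j => vv T0 Y lam (fun i => cq (γ i) * (u i * pm (h i) (P i) (t i : ℝ))) j) F := by
      rw [← AlgHom.comp_apply, MvPolynomial.comp_aeval]
      congr 2
      funext j
      rw [Ug_eval, hVV]
      congr 1
      funext i
      congr 1
      ext a b
      exact tr_eval (h i) (P i) (u i) (t i : ℝ) (a, b)
    rw [e1, hFe]
    exact hne

end good

end Q207.HS
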