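import Pool.Agent.Q207.HS.Gen

/-!
# Linear relations between Harish-Chandra coordinates at good points
-/

set_option autoImplicit false

open Matrix PowerSeries Filter

namespace Q207.HS

open Q207.AJ (pm Pr)

/-- the linear form with the matrix `L` -/
noncomputable def lf {g : ℕ} (L : Matrix (Fin g) (Fin g) ℂ) : Matrix (Fin g) (Fin g) ℂ →ₗ[ℂ] ℂ where
  toFun X := ∑ a, ∑ b, L a b * X a b
  map_add' X X' := by
    simp only [Matrix.add_apply, mul_add, Finset.sum_add_distrib]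
  map_smul' c X := by
    simp only [Matrix.smul_apply, smul_eq_mul, RingHom.id_apply, Finset.mul_sum]
    exact Finset.sum_congr rfl fun a _ => Finset.sum_congr rfl fun b _ => by ring

/-- the linear form `X ↦ L(Y X Y)` -/
noncomputable def ly {g : ℕ} (Y L : Matrix (Fin g) (Fin g) ℂ) : Matrix (Fin g) (Fin g) ℂ →ₗ[ℂ] ℂ where
  toFun X := lf L (Y * X * Y)
  map_add' X X' := by
    rw [Matrix.mul_add, Matrix.add_mul, map_add]
  map_smul' c X := by
    rw [Matrix.mul_smul, Matrix.smul_mul, map_smul, RingHom.id_apply]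

theorem ly_apply {g : ℕ} (Y L X : Matrix (Fin g) (Fin g) ℂ) : ly Y L X = lf L (Y * X * Y) := rfl

section
variable {k n : ℕ} {g r : Fin k → ℕ}

theorem vv_eq {T0 Y C : ∀ i, Matrix (Fin (g i)) (Fin (g i)) ℂ} (lam : Fin n → ∀ i, Matrix (Fin (g i)) (Fin (g i)) ℂ)
    {Om : ∀ i, Matrix (Fin (g i) ⊕ Fin (g i)) (Fin (g i)) ℂ}
    (hC : ∀ i, (Om i).submatrix Sum.inl id - T0 i * (Om i).submatrix Sum.inr id = C i * (Om i).submatrix Sum.inr id) (j : Fin n) :
    vv T0 Y lam Om j = (∏ i, ((Om i).submatrix Sum.inr id).det) * ((∑ i, lf (lam j i) (Y i)) * ∏ i, (C i).det -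
      Ps (fun i => ly (Y i) (lam j i)) C) := by
  classical
  have hN : ∀ i, NN T0 Om i = C i * (Om i).submatrix Sum.inr id := hC
  have hU : ∀ i, UU T0 Y Om i = ((Om i).submatrix Sum.inr id).det • ((C i).det • Y i - Y i * (C i).adjugate * Y i) := by
    intro i
    unfold UU
    rw [hN, Matrix.det_mul, Matrix.adjugate_mul_distrib, smul_sub, smul_smul, mul_comm (C i).det]
    congr 1
    calc Y i * (Om i).submatrix Sum.inr id * (((Om i).submatrix Sum.inr id).adjugate * (C i).adjugate) * Y i =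
        Y i * ((Om i).submatrix Sum.inr id * ((Om i).submatrix Sum.inr id).adjugate) * (C i).adjugate * Y i := by
          simp only [Matrix.mul_assoc]
      _ = _ := by
          rw [Matrix.mul_adjugate, Matrix.mul_smul, Matrix.mul_one, Matrix.smul_mul, Matrix.smul_mul]
  unfold vv Ps
  rw [Finset.sum_mul, ← Finset.sum_sub_distrib, Finset.mul_sum]
  refine Finset.sum_congr rfl fun i _ => ?_
  have e1 : ∑ a, ∑ b, lam j i a b * UU T0 Y Om i a b = lf (lam j i) (UU T0 Y Om i) := rfl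
  have e2 : ∏ l ∈ Finset.univ.erase i, (NN T0 Om l).det =
      (∏ l ∈ Finset.univ.erase i, (C l).det) * ∏ l ∈ Finset.univ.erase i, ((Om l).submatrix Sum.inr id).det := by
    rw [← Finset.prod_mul_distrib]
    refine Finset.prod_congr rfl fun l _ => ?_
    rw [hN, Matrix.det_mul]
  rw [e1, e2, hU, map_smul, map_sub, map_smul, ly_apply, ← Finset.mul_prod_erase _ (fun i => (C i).det) (Finset.mem_univ i),
    ← Finset.mul_prod_erase _ (fun i => ((Om i).submatrix Sum.inr id).det) (Finset.mem_univ i), smul_eq_mul, smul_eq_mul]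
  ring

theorem vv_inv {T0 Y C : ∀ i, Matrix (Fin (g i)) (Fin (g i)) ℂ} (lam : Fin n → ∀ i, Matrix (Fin (g i)) (Fin (g i)) ℂ)
    {Om : ∀ i, Matrix (Fin (g i) ⊕ Fin (g i)) (Fin (g i)) ℂ}
    (hC : ∀ i, (Om i).submatrix Sum.inl id - T0 i * (Om i).submatrix Sum.inr id = C i * (Om i).submatrix Sum.inr id)
    (hCd : ∀ i, (C i).det ≠ 0) (j : Fin n) :
    vv T0 Y lam Om j = (∏ i, ((Om i).submatrix Sum.inr id).det) * (∏ i, (C i).det) *
      ∑ i, lf (lam j i) (Y i - Y i * (C i)⁻¹ * Y i) := by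
  classical
  rw [vv_eq lam hC j, mul_assoc]
  congr 1
  unfold Ps
  rw [Finset.sum_mul, ← Finset.sum_sub_distrib, Finset.mul_sum]
  refine Finset.sum_congr rfl fun i _ => ?_
  have e1 : (C i).adjugate = (C i).det • (C i)⁻¹ := by
    rw [Matrix.inv_def, smul_smul, Ring.mul_inverse_cancel _ (Ne.isUnit (hCd i)), one_smul]
  rw [e1, ly_apply, Matrix.mul_smul, Matrix.smul_mul, map_smul, map_sub, smul_eq_mul,
    ← Finset.mul_prod_erase _ (fun i => (C i).det) (Finset.mem_univ i)]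
  ring

theorem cq_mul {a b c : Type} [Fintype b] (M : Matrix a b ℚ) (M' : Matrix b c ℚ) : cq (M * M') = cq M * cq M' := Matrix.map_mul

/-- the translation -/
def Tt {g : ℕ} (S : Matrix (Fin g) (Fin g) ℚ) : Matrix (Fin g ⊕ Fin g) (Fin g ⊕ Fin g) ℚ := fromBlocks 1 S 0 1

theorem Tt_inl {g : ℕ} (S : Matrix (Fin g) (Fin g) ℚ) (Z : Matrix (Fin g ⊕ Fin g) (Fin g) ℂ) :
    (cq (Tt S) * Z).submatrix Sum.inl id = Z.submatrix Sum.inl id + cq S * Z.submatrix Sum.inr id := by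
  ext a b
  simp only [Matrix.submatrix_apply, Matrix.mul_apply, Fintype.sum_sum_type, cq, Tt, Matrix.map_apply, fromBlocks_apply₁₁,
    fromBlocks_apply₁₂, id, Matrix.add_apply]
  congr 1
  rw [Finset.sum_eq_single a]
  · rw [Matrix.one_apply_eq, map_one, one_mul]
  · intro c _ hc
    rw [Matrix.one_apply_ne hc.symm, map_zero, zero_mul]
  · intro h
    exact absurd (Finset.mem_univ _) h

theorem Tt_inr {g : ℕ} (S : Matrix (Fin g) (Fin g) ℚ) (Z : Matrix (Fin g ⊕ Fin g) (Fin g) ℂ) :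
    (cq (Tt S) * Z).submatrix Sum.inr id = Z.submatrix Sum.inr id := by
  ext a b
  simp only [Matrix.submatrix_apply, Matrix.mul_apply, Fintype.sum_sum_type, cq, Tt, Matrix.map_apply, fromBlocks_apply₂₁,
    fromBlocks_apply₂₂, id, Matrix.zero_apply, map_zero, zero_mul, Finset.sum_const_zero, zero_add]
  rw [Finset.sum_eq_single a]
  · rw [Matrix.one_apply_eq, map_one, one_mul]
  · intro c _ hc
    rw [Matrix.one_apply_ne hc.symm, map_zero, zero_mul]
  · intro h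
    exact absurd (Finset.mem_univ _) h

theorem main_pt {D : ℕ} {h : ∀ i, Fin (r i) → ℚ⟦X⟧} {P : ∀ i, (Fin (g i) ⊕ Fin (g i)) → Fin (g i) → MvPolynomial (Option (Fin (r i))) ℂ}
    {T0 Y : ∀ i, Matrix (Fin (g i)) (Fin (g i)) ℂ} {lam : Fin n → ∀ i, Matrix (Fin (g i)) (Fin (g i)) ℂ} {t : Fin k → ℕ}
    (hG : Good D h P T0 Y lam t) (hg : ∀ i, 0 < g i) (hY : ∀ i, (Y i).det ≠ 0) (hYs : ∀ i, (Y i)ᵀ = Y i)
    {γ : ∀ i, Matrix (Fin (g i) ⊕ Fin (g i)) (Fin (g i) ⊕ Fin (g i)) ℚ}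
    (hSp : ∀ S : ∀ i, Matrix (Fin (g i)) (Fin (g i)) ℚ, (∀ i, (S i)ᵀ = S i) →
      ∃ u : ∀ i, Matrix (Fin (g i) ⊕ Fin (g i)) (Fin (g i) ⊕ Fin (g i)) ℂ, (∀ i, Pr (h i) (P i) (u i)) ∧
        ∀ i, cq (γ i) * u i = cq (Tt (S i)) * cq (γ i))
    (hB : ∀ i, ((cq (γ i) * pm (h i) (P i) (t i : ℝ)).submatrix Sum.inr id).det ≠ 0)
    {C : ∀ i, Matrix (Fin (g i)) (Fin (g i)) ℂ}
    (hC : ∀ i, (cq (γ i) * pm (h i) (P i) (t i : ℝ)).submatrix Sum.inl id -
      T0 i * (cq (γ i) * pm (h i) (P i) (t i : ℝ)).submatrix Sum.inr id =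
        C i * (cq (γ i) * pm (h i) (P i) (t i : ℝ)).submatrix Sum.inr id)
    (hCd : ∀ i, (C i).det ≠ 0) (K : IntermediateField ℚ ℂ) [FiniteDimensional ℚ K] (hK : Module.finrank ℚ K ≤ D) (c : Fin n → K)
    (h0 : ∑ j, (c j : ℂ) * ∑ i, lf (lam j i) (Y i - Y i * (C i)⁻¹ * Y i) = 0) :
    ∃ σ : K →ₐ[ℚ] ℂ, ∀ X : ∀ i, Matrix (Fin (g i)) (Fin (g i)) ℂ, (∀ i, (X i)ᵀ = X i) →
      ∑ j, σ (c j) * ∑ i, lf (lam j i) (X i) = 0 := by
  classical
  set Om : ∀ i, Matrix (Fin (g i) ⊕ Fin (g i)) (Fin (g i)) ℂ := fun i => cq (γ i) * pm (h i) (P i) (t i : ℝ) with hOm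
  set β : ℂ := ∏ i, ((Om i).submatrix Sum.inr id).det with hβ
  have hβ0 : β ≠ 0 := Finset.prod_ne_zero_iff.2 fun i _ => hB i
  have h1 : ∑ j, (c j : ℂ) * vv T0 Y lam Om j = 0 := by
    have e1 : ∀ j, (c j : ℂ) * vv T0 Y lam Om j = (β * ∏ i, (C i).det) * ((c j : ℂ) * ∑ i, lf (lam j i) (Y i - Y i * (C i)⁻¹ * Y i)) := by
      intro j
      rw [vv_inv lam hC hCd j]
      ring
    rw [Finset.sum_congr rfl fun j _ => e1 j, ← Finset.mul_sum, h0, mul_zero]
  have h2 := hG K hK c γ h1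
  set a : (K →ₐ[ℚ] ℂ) → ℂ := fun σ => ∑ j, σ (c j) * ∑ i, lf (lam j i) (Y i) with ha
  set ℓ : (K →ₐ[ℚ] ℂ) → ∀ i, Matrix (Fin (g i)) (Fin (g i)) ℂ →ₗ[ℂ] ℂ := fun σ i => ∑ j, σ (c j) • ly (Y i) (lam j i) with hℓ
  have hPs : ∀ (σ : K →ₐ[ℚ] ℂ) (A : ∀ i, Matrix (Fin (g i)) (Fin (g i)) ℂ), Ps (ℓ σ) A = ∑ j, σ (c j) * Ps (fun i => ly (Y i) (lam j i)) A := by
    intro σ A
    unfold Ps
    simp only [hℓ, LinearMap.sum_apply, LinearMap.smul_apply, smul_eq_mul, Finset.mul_sum, Finset.sum_mul]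
    rw [Finset.sum_comm]
    refine Finset.sum_congr rfl fun j _ => Finset.sum_congr rfl fun i _ => ?_
    ring
  have h3 : ∀ S : ∀ i, Matrix (Fin (g i)) (Fin (g i)) ℚ, (∀ i, (S i)ᵀ = S i) → (∀ i, (S i).det ≠ 0) →
      ∃ σ, a σ = 0 ∧ Ps (ℓ σ) (fun i => cq (S i)) = 0 := by
    intro S hS hSd
    refine lim_all (T := C) hg (fun i => ?_) fun m => ?_
    · intro h4
      apply hSd i
      have e2 : (cq (S i)).det = algebraMap ℚ ℂ (S i).det := by
        show ((S i).map (algebraMap ℚ ℂ)).det = _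
        rw [← RingHom.mapMatrix_apply, ← RingHom.map_det]
      rw [e2, _root_.map_eq_zero] at h4
      exact h4
    · obtain ⟨u, hu, huγ⟩ := hSp (fun i => (m : ℚ) • S i) fun i => by rw [transpose_smul, hS]
      have h4 := h2 u hu
      have e3 : ∀ i, cq (γ i) * (u i * pm (h i) (P i) (t i : ℝ)) = cq (Tt ((m : ℚ) • S i)) * Om i := by
        intro i
        rw [← Matrix.mul_assoc, huγ, Matrix.mul_assoc]
      have e4 : ∀ i, cq ((m : ℚ) • S i) = (m : ℂ) • cq (S i) := by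
        intro i
        ext a b
        simp [cq]
      simp only [e3] at h4
      have hC' : ∀ i, (cq (Tt ((m : ℚ) • S i)) * Om i).submatrix Sum.inl id - T0 i * (cq (Tt ((m : ℚ) • S i)) * Om i).submatrix Sum.inr id =
          (C i + (m : ℂ) • cq (S i)) * (cq (Tt ((m : ℚ) • S i)) * Om i).submatrix Sum.inr id := by
        intro i
        rw [Tt_inl, Tt_inr, Matrix.add_mul, ← hC i, e4]
        abel
      have e5 : ∀ j, vv T0 Y lam (fun i => cq (Tt ((m : ℚ) • S i)) * Om i) j = β * ((∑ i, lf (lam j i) (Y i)) *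
          ∏ i, (C i + (m : ℂ) • cq (S i)).det - Ps (fun i => ly (Y i) (lam j i)) fun i => C i + (m : ℂ) • cq (S i)) := by
        intro j
        rw [vv_eq lam hC' j]
        simp only [Tt_inr]
        rfl
      simp only [e5] at h4
      obtain ⟨σ, -, hσ⟩ := Finset.prod_eq_zero_iff.1 h4
      refine Finset.prod_eq_zero (Finset.mem_univ σ) ?_
      have e6 : ∑ j, σ (c j) * (β * ((∑ i, lf (lam j i) (Y i)) *
          ∏ i, (C i + (m : ℂ) • cq (S i)).det - Ps (fun i => ly (Y i) (lam j i)) fun i => C i + (m : ℂ) • cq (S i))) =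
          β * (a σ * ∏ i, (C i + (m : ℂ) • cq (S i)).det - Ps (ℓ σ) fun i => C i + (m : ℂ) • cq (S i)) := by
        rw [hPs, ha]
        simp only [Finset.sum_mul, mul_sub, Finset.mul_sum, ← Finset.sum_sub_distrib]
        refine Finset.sum_congr rfl fun j _ => ?_
        congr 1
        · refine Finset.sum_congr rfl fun i _ => ?_
          ring
        · ring
      rw [e6] at hσ
      exact (mul_eq_zero.1 hσ).resolve_left hβ0
  obtain ⟨σ, -, hσ⟩ := one_form h3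
  refine ⟨σ, fun X hX => ?_⟩
  have hYu : ∀ i, IsUnit (Y i).det := fun i => Ne.isUnit (hY i)
  have h5 := hσ (fun i => (Y i)⁻¹ * X i * (Y i)⁻¹) fun i => by
    rw [transpose_mul, transpose_mul, transpose_nonsing_inv, hYs, hX, Matrix.mul_assoc]
  have e7 : ∀ i, Y i * ((Y i)⁻¹ * X i * (Y i)⁻¹) * Y i = X i := by
    intro i
    calc Y i * ((Y i)⁻¹ * X i * (Y i)⁻¹) * Y i = (Y i * (Y i)⁻¹) * X i * ((Y i)⁻¹ * Y i) := by simp only [Matrix.mul_assoc]
      _ = X i := by rw [Matrix.mul_nonsing_inv _ (hYu i), Matrix.nonsing_inv_mul _ (hYu i), Matrix.one_mul, Matrix.mul_one]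
  rw [← h5]
  simp only [hℓ, LinearMap.sum_apply, LinearMap.smul_apply, smul_eq_mul, ly_apply, e7, Finset.mul_sum]
  exact Finset.sum_comm

end

end Q207.HS
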