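import Pool.Agent.Q207.HS.Main

/-!
# Rational subspaces of the tangent space
-/

set_option autoImplicit false

open Matrix PowerSeries Filter

namespace Q207.HS

open Q207.AJ (pm Pr)

/-- tuples of symmetric matrices -/
def Tg {k : ℕ} (g : Fin k → ℕ) : Submodule ℂ (∀ i, Matrix (Fin (g i)) (Fin (g i)) ℂ) where
  carrier := {M | ∀ i, (M i).transpose = M i}
  add_mem' {x y} hx hy i := by
    show (x i + y i).transpose = x i + y i
    rw [transpose_add, hx i, hy i]
  zero_mem' i := transpose_zero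
  smul_mem' c x hx i := by
    show (c • x i).transpose = c • x i
    rw [transpose_smul, hx i]

section forms
variable {T : Type} [AddCommGroup T] [Module ℂ T] {n : ℕ}

theorem exists_form (K : IntermediateField ℚ ℂ) (b : Module.Basis (Fin n) ℂ T) {V : Submodule ℂ T}
    (hV : V ≤ Submodule.span ℂ {x | x ∈ V ∧ ∀ j, b.repr x j ∈ K}) (hne : V ≠ ⊤) :
    ∃ c : Fin n → K, c ≠ 0 ∧ ∀ x ∈ V, ∑ j, (c j : ℂ) * b.repr x j = 0 := by
  classical
  let VK : Submodule K (Fin n → K) :=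
    { carrier := {y | ∑ j, (y j : ℂ) • b j ∈ V}
      add_mem' := fun {x y} hx hy => by
        show ∑ j, ((x j + y j : K) : ℂ) • b j ∈ V
        have e1 : ∑ j, ((x j + y j : K) : ℂ) • b j = ∑ j, (x j : ℂ) • b j + ∑ j, (y j : ℂ) • b j := by
          rw [← Finset.sum_add_distrib]
          refine Finset.sum_congr rfl fun j _ => ?_
          rw [← add_smul]
          rfl
        rw [e1]
        exact V.add_mem hx hy
      zero_mem' := by
        show ∑ j, ((0 : K) : ℂ) • b j ∈ V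
        simp
      smul_mem' := fun a x hx => by
        show ∑ j, ((a * x j : K) : ℂ) • b j ∈ V
        have e1 : ∑ j, ((a * x j : K) : ℂ) • b j = (a : ℂ) • ∑ j, (x j : ℂ) • b j := by
          rw [Finset.smul_sum]
          refine Finset.sum_congr rfl fun j _ => ?_
          rw [smul_smul]
          rfl
        rw [e1]
        exact V.smul_mem _ hx }
  have hlt : VK < ⊤ := by
    refine lt_top_iff_ne_top.2 fun h => hne ?_
    rw [eq_top_iff, ← b.span_eq, Submodule.span_le]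
    rintro _ ⟨j, rfl⟩
    have h1 : (Pi.single j 1 : Fin n → K) ∈ VK := by
      rw [h]
      trivial
    have h2 : ∑ l, (((Pi.single j 1 : Fin n → K) l : K) : ℂ) • b l ∈ V := h1
    rw [Finset.sum_eq_single j] at h2
    · rw [Pi.single_eq_same] at h2
      have h3 : ((1 : K) : ℂ) • b j = b j := by
        show (1 : ℂ) • b j = b j
        rw [one_smul]
      rw [h3] at h2
      exact h2
    · intro l _ hl
      rw [Pi.single_eq_of_ne hl]
      show (0 : ℂ) • b l = 0
      rw [zero_smul]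
    · intro h3
      exact absurd (Finset.mem_univ _) h3
  obtain ⟨f, hf0, hf⟩ := Submodule.exists_le_ker_of_lt_top VK hlt
  refine ⟨fun j => f (Pi.single j 1), ?_, ?_⟩
  · intro h
    apply hf0
    refine LinearMap.pi_ext' fun j => ?_
    refine LinearMap.ext_ring ?_
    show f (Pi.single j 1) = 0
    exact congrFun h j
  · have hfy : ∀ y : Fin n → K, f y = ∑ j, y j * f (Pi.single j 1) := by
      intro y
      conv_lhs => rw [LinearMap.pi_apply_eq_sum_univ f y]
      refine Finset.sum_congr rfl fun j _ => ?_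
      rw [smul_eq_mul]
      congr 2
      funext l
      rw [Pi.single_apply]
      by_cases h : j = l
      · subst h
        simp
      · rw [if_neg h, if_neg (Ne.symm h)]
    let φ : T →ₗ[ℂ] ℂ := ∑ j, ((f (Pi.single j 1) : K) : ℂ) • b.coord j
    have hφ : ∀ x, φ x = ∑ j, ((f (Pi.single j 1) : K) : ℂ) * b.repr x j := by
      intro x
      simp only [φ, LinearMap.sum_apply, LinearMap.smul_apply, Module.Basis.coord_apply, smul_eq_mul]
    have hker : V ≤ LinearMap.ker φ := by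
      refine hV.trans (Submodule.span_le.2 ?_)
      rintro x ⟨hx, hxK⟩
      let y : Fin n → K := fun j => ⟨b.repr x j, hxK j⟩
      have hy : y ∈ VK := by
        show ∑ j, b.repr x j • b j ∈ V
        rw [b.sum_repr]
        exact hx
      have h1 : f y = 0 := hf hy
      rw [hfy] at h1
      show φ x = 0
      rw [hφ]
      have h2 : ((∑ j, y j * f (Pi.single j 1) : K) : ℂ) = ((0 : K) : ℂ) := congrArg (fun a : K => (a : ℂ)) h1
      have h3 : ((∑ j, y j * f (Pi.single j 1) : K) : ℂ) = ∑ j, (y j : ℂ) * ((f (Pi.single j 1) : K) : ℂ) := by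
        push_cast
        rfl
      rw [h3] at h2
      refine Eq.trans (Finset.sum_congr rfl fun j _ => ?_) h2
      rw [mul_comm]
    intro x hx
    rw [← hφ]
    exact hker hx

end forms

section basis
variable {k n : ℕ} {g : Fin k → ℕ}

/-- the symmetric matrix `(E_ab + E_ba) / 2` in the place `i` -/
noncomputable def sy (i : Fin k) (a b : Fin (g i)) : Tg g :=
  ⟨Pi.single i ((2 : ℂ)⁻¹ • (Matrix.single a b 1 + Matrix.single b a 1)), by
    intro l
    by_cases hl : l = i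
    · subst hl
      rw [Pi.single_eq_same, transpose_smul, transpose_add, Matrix.transpose_single, Matrix.transpose_single, add_comm]
    · rw [Pi.single_eq_of_ne hl, transpose_zero]⟩

/-- the coefficients of the coordinates -/
noncomputable def lamb (b : Module.Basis (Fin n) ℂ (Tg g)) (j : Fin n) (i : Fin k) : Matrix (Fin (g i)) (Fin (g i)) ℂ :=
  Matrix.of fun a a' => b.repr (sy i a a') j

theorem sum_sy (X : Tg g) : X = ∑ i, ∑ a, ∑ a', (X : ∀ i, Matrix (Fin (g i)) (Fin (g i)) ℂ) i a a' • sy i a a' := by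
  classical
  apply Subtype.ext
  funext i
  have h1 : ((∑ i, ∑ a, ∑ a', (X : ∀ i, Matrix (Fin (g i)) (Fin (g i)) ℂ) i a a' • sy i a a' : Tg g) :
      ∀ i, Matrix (Fin (g i)) (Fin (g i)) ℂ) i =
      ∑ a, ∑ a', (X : ∀ i, Matrix (Fin (g i)) (Fin (g i)) ℂ) i a a' • ((2 : ℂ)⁻¹ • (Matrix.single a a' 1 + Matrix.single a' a 1)) := by
    simp only [Submodule.coe_sum, Submodule.coe_smul, Finset.sum_apply, Pi.smul_apply]
    rw [Finset.sum_eq_single i]
    · refine Finset.sum_congr rfl fun a _ => Finset.sum_congr rfl fun a' _ => ?_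
      simp only [sy, Pi.single_eq_same]
    · intro l _ hl
      refine Finset.sum_eq_zero fun a _ => Finset.sum_eq_zero fun a' _ => ?_
      simp only [sy]
      rw [Pi.single_eq_of_ne (Ne.symm hl), smul_zero]
    · intro h
      exact absurd (Finset.mem_univ _) h
  rw [h1]
  set M := (X : ∀ i, Matrix (Fin (g i)) (Fin (g i)) ℂ) i with hM
  have hMs : Mᵀ = M := X.2 i
  have e1 : M = ∑ i, ∑ j, Matrix.single i j (M i j) := Matrix.matrix_eq_sum_single M
  have e2 : Mᵀ = ∑ i, ∑ j, Matrix.single j i (M i j) := by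
    conv_lhs => rw [e1]
    rw [Matrix.transpose_sum]
    refine Finset.sum_congr rfl fun i _ => ?_
    rw [Matrix.transpose_sum]
    refine Finset.sum_congr rfl fun j _ => ?_
    rw [Matrix.transpose_single]
  have e3 : ∀ i j, M i j • ((2 : ℂ)⁻¹ • (Matrix.single i j (1 : ℂ) + Matrix.single j i 1)) =
      (2 : ℂ)⁻¹ • (Matrix.single i j (M i j) + Matrix.single j i (M i j)) := by
    intro i j
    rw [smul_comm, smul_add, Matrix.smul_single, Matrix.smul_single, smul_eq_mul, mul_one]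
  simp only [e3, ← Finset.smul_sum, Finset.sum_add_distrib]
  rw [← e1, ← e2, hMs, ← two_smul ℂ M, smul_smul, inv_mul_cancel₀ two_ne_zero, one_smul]

theorem lamb_sum (b : Module.Basis (Fin n) ℂ (Tg g)) (j : Fin n) (X : Tg g) :
    ∑ i, lf (lamb b j i) ((X : ∀ i, Matrix (Fin (g i)) (Fin (g i)) ℂ) i) = b.repr X j := by
  conv_rhs => rw [sum_sy X]
  simp only [map_sum, map_smul, Finsupp.coe_finsetSum, Finset.sum_apply, Finsupp.smul_apply, smul_eq_mul]
  refine Finset.sum_congr rfl fun i _ => ?_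
  show ∑ a, ∑ a', lamb b j i a a' * _ = _
  refine Finset.sum_congr rfl fun a _ => Finset.sum_congr rfl fun a' _ => ?_
  rw [mul_comm]
  rfl

end basis

section siegel
variable {g : ℕ}

theorem det_siegel {Z : Matrix (Fin g) (Fin g) ℂ} (hZ : Zᵀ = Z) (hpos : (Z.map Complex.im).PosDef) : Z.det ≠ 0 := by
  intro h
  obtain ⟨v, hv, h0⟩ := Matrix.exists_mulVec_eq_zero_iff.2 h
  have h1 : ∑ a, ∑ b, (starRingEnd ℂ (v a) * Z a b * v b) = 0 := by
    have e1 : ∀ a, ∑ b, (starRingEnd ℂ (v a) * Z a b * v b) = starRingEnd ℂ (v a) * (Z *ᵥ v) a := by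
      intro a
      rw [Matrix.mulVec, dotProduct, Finset.mul_sum]
      exact Finset.sum_congr rfl fun b _ => by ring
    rw [Finset.sum_congr rfl fun a _ => e1 a, h0]
    simp
  have h2 : ∑ a, ∑ b, ((v a).re * (v b).re + (v a).im * (v b).im) * (Z a b).im +
      ∑ a, ∑ b, ((v a).re * (v b).im - (v a).im * (v b).re) * (Z a b).re = 0 := by
    have e1 := congrArg Complex.im h1
    rw [Complex.im_sum] at e1
    simp only [Complex.im_sum, Complex.mul_im, Complex.mul_re, Complex.conj_re, Complex.conj_im, Complex.zero_im] at e1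
    rw [← Finset.sum_add_distrib]
    simp only [← Finset.sum_add_distrib]
    rw [← e1]
    refine Finset.sum_congr rfl fun a _ => Finset.sum_congr rfl fun b _ => ?_
    ring
  have h3 : ∑ a, ∑ b, ((v a).re * (v b).im - (v a).im * (v b).re) * (Z a b).re = 0 := by
    have e1 : ∑ a, ∑ b, ((v a).re * (v b).im - (v a).im * (v b).re) * (Z a b).re =
        -∑ a, ∑ b, ((v a).re * (v b).im - (v a).im * (v b).re) * (Z a b).re := by
      conv_lhs => rw [Finset.sum_comm]
      rw [← Finset.sum_neg_distrib]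
      refine Finset.sum_congr rfl fun a _ => ?_
      rw [← Finset.sum_neg_distrib]
      refine Finset.sum_congr rfl fun b _ => ?_
      have e2 : Z b a = Z a b := by
        conv_rhs => rw [← hZ]
        rfl
      rw [e2]
      ring
    linarith
  rw [h3, add_zero] at h2
  have hq : ∀ x : Fin g → ℝ, ∑ a, ∑ b, x a * x b * (Z a b).im = star x ⬝ᵥ ((Z.map Complex.im) *ᵥ x) := by
    intro x
    simp only [dotProduct, Matrix.mulVec, Matrix.map_apply, star_trivial, Finset.mul_sum]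
    refine Finset.sum_congr rfl fun a _ => Finset.sum_congr rfl fun b _ => ?_
    ring
  have h4 : ∑ a, ∑ b, ((v a).re * (v b).re + (v a).im * (v b).im) * (Z a b).im =
      ∑ a, ∑ b, (v a).re * (v b).re * (Z a b).im + ∑ a, ∑ b, (v a).im * (v b).im * (Z a b).im := by
    rw [← Finset.sum_add_distrib]
    simp only [← Finset.sum_add_distrib]
    refine Finset.sum_congr rfl fun a _ => Finset.sum_congr rfl fun b _ => ?_
    ring
  rw [h4, hq (fun a => (v a).re), hq (fun a => (v a).im)] at h2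
  have h5 : ∀ x : Fin g → ℝ, 0 ≤ star x ⬝ᵥ ((Z.map Complex.im) *ᵥ x) := fun x => hpos.posSemidef.dotProduct_mulVec_nonneg x
  have h6 : ∀ x : Fin g → ℝ, star x ⬝ᵥ ((Z.map Complex.im) *ᵥ x) = 0 → x = 0 := by
    intro x hx
    by_contra hne
    have := hpos.dotProduct_mulVec_pos hne
    rw [hx] at this
    exact lt_irrefl _ this
  have h7 := h5 fun a => (v a).re
  have h8 := h5 fun a => (v a).im
  have h9 := h6 _ (le_antisymm (by linarith) h7)
  have h10 := h6 _ (le_antisymm (by linarith) h8)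
  apply hv
  funext a
  apply Complex.ext
  · exact congrFun h9 a
  · exact congrFun h10 a

theorem siegel_conj {o : Matrix (Fin g) (Fin g) ℂ} (ho : oᵀ = o) : (o.map (starRingEnd ℂ))ᵀ = o.map (starRingEnd ℂ) := by
  ext a b
  simp only [Matrix.transpose_apply, Matrix.map_apply]
  rw [show o b a = o a b from congrFun (congrFun ho a) b]

theorem im_sub {o τ : Matrix (Fin g) (Fin g) ℂ} :
    (τ - o.map (starRingEnd ℂ)).map Complex.im = τ.map Complex.im + o.map Complex.im := by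
  ext a b
  simp [Matrix.map_apply]

theorem det_diff {o τ : Matrix (Fin g) (Fin g) ℂ} (ho : oᵀ = o) (hop : (o.map Complex.im).PosDef) (hτ : τᵀ = τ)
    (hτp : (τ.map Complex.im).PosDef) : (τ - o.map (starRingEnd ℂ)).det ≠ 0 := by
  refine det_siegel ?_ ?_
  · rw [transpose_sub, hτ, siegel_conj ho]
  · rw [im_sub]
    exact hτp.add hop

/-- conjugates of translations by similitudes -/
theorem conj_trans {γ : Matrix (Fin g ⊕ Fin g) (Fin g ⊕ Fin g) ℚ}
    (hγ : ∃ m : ℚ, 0 < m ∧ γ * Matrix.J (Fin g) ℚ * γ.transpose = m • Matrix.J (Fin g) ℚ) {S : Matrix (Fin g) (Fin g) ℚ}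
    (hS : Sᵀ = S) : ∃ u ∈ Matrix.symplecticGroup (Fin g) ℚ, γ * u = Tt S * γ := by
  obtain ⟨m, hm, hγm⟩ := hγ
  have hJ : IsUnit (Matrix.J (Fin g) ℚ) := by
    rw [Matrix.isUnit_iff_isUnit_det]
    exact Matrix.isUnit_det_J (Fin g) ℚ
  have hu : IsUnit γ.det := by
    have h1 : IsUnit (γ * Matrix.J (Fin g) ℚ * γ.transpose).det := by
      rw [hγm, Matrix.det_smul]
      exact ((Ne.isUnit hm.ne').pow _).mul (Matrix.isUnit_det_J (Fin g) ℚ)
    rw [Matrix.det_mul, Matrix.det_mul] at h1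
    exact isUnit_of_mul_isUnit_left (isUnit_of_mul_isUnit_left h1)
  have h1 : γ * γ⁻¹ = 1 := Matrix.mul_nonsing_inv _ hu
  have h2 : γ⁻¹ * γ = 1 := Matrix.nonsing_inv_mul _ hu
  have h1t : γ⁻¹ᵀ * γᵀ = 1 := by rw [← transpose_mul, h1, transpose_one]
  have h2t : γᵀ * γ⁻¹ᵀ = 1 := by rw [← transpose_mul, h2, transpose_one]
  have hT : Tt S * Matrix.J (Fin g) ℚ * (Tt S)ᵀ = Matrix.J (Fin g) ℚ := by
    unfold Tt Matrix.J
    rw [Matrix.fromBlocks_transpose, Matrix.fromBlocks_multiply, Matrix.fromBlocks_multiply, hS]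
    simp
  refine ⟨γ⁻¹ * Tt S * γ, ?_, ?_⟩
  · rw [SymplecticGroup.mem_iff]
    have h3 : γ⁻¹ * Matrix.J (Fin g) ℚ * γ⁻¹ᵀ = m⁻¹ • Matrix.J (Fin g) ℚ := by
      have h4 : Matrix.J (Fin g) ℚ = m⁻¹ • (γ * Matrix.J (Fin g) ℚ * γᵀ) := by
        rw [hγm, smul_smul, inv_mul_cancel₀ hm.ne', one_smul]
      calc γ⁻¹ * Matrix.J (Fin g) ℚ * γ⁻¹ᵀ = γ⁻¹ * (m⁻¹ • (γ * Matrix.J (Fin g) ℚ * γᵀ)) * γ⁻¹ᵀ := by rw [← h4]
        _ = m⁻¹ • ((γ⁻¹ * γ) * Matrix.J (Fin g) ℚ * (γᵀ * γ⁻¹ᵀ)) := by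
            rw [Matrix.mul_smul, Matrix.smul_mul]
            simp only [Matrix.mul_assoc]
        _ = _ := by rw [h2, h2t, Matrix.one_mul, Matrix.mul_one]
    rw [transpose_mul, transpose_mul]
    calc γ⁻¹ * Tt S * γ * Matrix.J (Fin g) ℚ * (γᵀ * ((Tt S)ᵀ * γ⁻¹ᵀ)) =
        γ⁻¹ * (Tt S * (γ * Matrix.J (Fin g) ℚ * γᵀ) * (Tt S)ᵀ) * γ⁻¹ᵀ := by simp only [Matrix.mul_assoc]
      _ = m • (γ⁻¹ * (Tt S * Matrix.J (Fin g) ℚ * (Tt S)ᵀ) * γ⁻¹ᵀ) := by
          rw [hγm, Matrix.mul_smul, Matrix.smul_mul, Matrix.mul_smul, Matrix.smul_mul]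
      _ = _ := by rw [hT, h3, smul_smul, mul_inv_cancel₀ hm.ne', one_smul]
  · rw [← Matrix.mul_assoc, ← Matrix.mul_assoc, h1, Matrix.one_mul]

end siegel

section concl
variable {k n : ℕ} {g r : Fin k → ℕ}

theorem concl {D : ℕ} {h : ∀ i, Fin (r i) → ℚ⟦X⟧} {P : ∀ i, (Fin (g i) ⊕ Fin (g i)) → Fin (g i) → MvPolynomial (Option (Fin (r i))) ℂ}
    {o : ∀ i, Matrix (Fin (g i)) (Fin (g i)) ℂ} {b : Module.Basis (Fin n) ℂ (Tg g)} {t : Fin k → ℕ}
    (hG : Good D h P (fun i => (o i).map (starRingEnd ℂ)) (fun i => o i - (o i).map (starRingEnd ℂ)) (lamb b) t)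
    (hg : ∀ i, 0 < g i) (hSp : ∀ i, ∀ u ∈ Matrix.symplecticGroup (Fin (g i)) ℚ, Pr (h i) (P i) (cq u))
    (ho : ∀ i, (o i)ᵀ = o i) (hop : ∀ i, ((o i).map Complex.im).PosDef)
    {γ : ∀ i, Matrix (Fin (g i) ⊕ Fin (g i)) (Fin (g i) ⊕ Fin (g i)) ℚ}
    (hγ : ∀ i, ∃ m : ℚ, 0 < m ∧ γ i * Matrix.J (Fin (g i)) ℚ * (γ i).transpose = m • Matrix.J (Fin (g i)) ℚ)
    {τ : ∀ i, Matrix (Fin (g i)) (Fin (g i)) ℂ} (hτ : ∀ i, (τ i)ᵀ = τ i) (hτp : ∀ i, ((τ i).map Complex.im).PosDef)
    (hB : ∀ i, ((cq (γ i) * pm (h i) (P i) (t i : ℝ)).submatrix Sum.inr id).det ≠ 0)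
    (hA : ∀ i, (cq (γ i) * pm (h i) (P i) (t i : ℝ)).submatrix Sum.inl id =
      τ i * (cq (γ i) * pm (h i) (P i) (t i : ℝ)).submatrix Sum.inr id)
    (K : IntermediateField ℚ ℂ) [FiniteDimensional ℚ K] (hK : Module.finrank ℚ K ≤ D) (c : Fin n → K) (z : Tg g)
    (hz : ∀ i, (z : ∀ i, Matrix (Fin (g i)) (Fin (g i)) ℂ) i = (o i - (o i).map (starRingEnd ℂ)) -
      (o i - (o i).map (starRingEnd ℂ)) * (τ i - (o i).map (starRingEnd ℂ))⁻¹ * (o i - (o i).map (starRingEnd ℂ)))
    (h0 : ∑ j, (c j : ℂ) * b.repr z j = 0) : c = 0 := by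
  classical
  obtain ⟨σ, hσ⟩ := main_pt hG hg (fun i => det_diff (ho i) (hop i) (ho i) (hop i))
    (fun i => by rw [transpose_sub, ho i, siegel_conj (ho i)]) (γ := γ) (fun S hS => by
      choose u hu hue using fun i => conj_trans (hγ i) (hS i)
      exact ⟨fun i => cq (u i), fun i => hSp i _ (hu i), fun i => by rw [← cq_mul, hue, cq_mul]⟩) hB
    (C := fun i => τ i - (o i).map (starRingEnd ℂ)) (fun i => by rw [hA, Matrix.sub_mul])
    (fun i => det_diff (ho i) (hop i) (hτ i) (hτp i)) K hK c (by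
      refine Eq.trans (Finset.sum_congr rfl fun j _ => ?_) h0
      rw [← lamb_sum b j z]
      congr 1
      refine Finset.sum_congr rfl fun i _ => ?_
      rw [hz])
  funext j
  have h1 := hσ (b j : ∀ i, Matrix (Fin (g i)) (Fin (g i)) ℂ) (b j).2
  simp only [lamb_sum] at h1
  rw [Finset.sum_eq_single j] at h1
  · rw [Module.Basis.repr_self, Finsupp.single_eq_same, mul_one] at h1
    exact (_root_.map_eq_zero σ).1 h1
  · intro l _ hl
    rw [Module.Basis.repr_self, Finsupp.single_eq_of_ne hl, mul_zero]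
  · intro hj
    exact absurd (Finset.mem_univ _) hj

end concl

end Q207.HS
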