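import Pool.Agent.Y120.R.Gx

/-!
# Relations with other numbers at almost all tuples are inherited by the functions with the same functional relations
-/

set_option autoImplicit false

open PowerSeries Pool.Agent.Y113 Pool.Agent.Y120.GF Pool.Agent.Y120.GH Pool.Agent.Y120.R Filter Topology

namespace Q207.HS

section
variable {k : ℕ} {r : Fin k → ℕ} {ν : Fin k → Type} {h : ∀ i, Fin (r i) → ℚ⟦X⟧}

/-- Let `w` be any numbers. At almost all tuples all rational relations between `w` and the values are inherited by all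
functions with the same functional relations. -/
theorem trans [∀ i, Fintype (ν i)] (p : Type) [Fintype p] (d e : ℕ) (hF : ∀ i, Fam (d * e) (h i)) :
    ∃ c C : ℝ, 0 < c ∧ 0 ≤ C ∧ ∀ (q : ∀ i, ν i → MvPolynomial (Option (Fin (r i))) ℂ), (∀ i j, (q i j).totalDegree ≤ e) →
      ∀ (w : p → ℂ) (x : Fin k → ℕ) (N : ℕ), 1 ≤ N → ∀ S : Finset (Fin k → ℕ),
      (∀ t ∈ S, (∀ i, x i < t i ∧ t i ≤ x i + N) ∧ ∃ Q : MvPolynomial (p ⊕ Σ i, ν i) ℚ, Q.totalDegree ≤ d ∧
        MvPolynomial.aeval (Sum.elim w (pn h q fun i => (t i : ℝ))) Q = 0 ∧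
        ∃ q' : ∀ i, ν i → MvPolynomial (Option (Fin (r i))) ℂ, (∀ i, Sat (h i) (q i) (q' i)) ∧
          MvPolynomial.aeval (Sum.elim w (pn h q' fun i => (t i : ℝ))) Q ≠ 0) →
      (S.card : ℝ) ≤ C * (N : ℝ) ^ (k - 1) * ∑ i, (1 + N / ((x i : ℝ) + N) ^ c) := by
  classical
  obtain ⟨c, C, hc, hC, hmain⟩ := gx (ν := ν) d e (Fintype.card (p → Fin (d + 1))) hF
  refine ⟨c, C, hc, hC, fun q hq w x N hN S hS => ?_⟩
  let f : (p → Fin (d + 1)) → ℂ := fun j => ∏ i, w i ^ (j i : ℕ)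
  let V : Submodule ℚ ℂ := Submodule.span ℚ (Set.range f)
  have hVfin : Module.Finite ℚ V := Module.Finite.span_of_finite ℚ (Set.finite_range f)
  have hVr : Module.finrank ℚ V ≤ Fintype.card (p → Fin (d + 1)) := finrank_range_le_card (R := ℚ) f
  refine hmain q hq V hVr x N hN S fun t ht => ?_
  obtain ⟨hbox, Q, hQd, hQ0, q', hq', hne⟩ := hS t ht
  let u₂ : ((p ⊕ Σ i, ν i) →₀ ℕ) → ((Σ i, ν i) →₀ ℕ) := fun u =>
    Finsupp.equivFunOnFinite.symm fun i => u (Sum.inr i)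
  let P : MvPolynomial (Σ i, ν i) ℂ := ∑ u ∈ Q.support,
    MvPolynomial.monomial (u₂ u) (((Q.coeff u : ℚ) : ℂ) * ∏ i, w i ^ u (Sum.inl i))
  have hev : ∀ (v : (Σ i, ν i) → ℂ) (u : (p ⊕ Σ i, ν i) →₀ ℕ) (b : ℂ), MvPolynomial.eval v (MvPolynomial.monomial (u₂ u) b) =
      b * ∏ i, v i ^ u (Sum.inr i) := by
    intro v u b
    rw [MvPolynomial.eval_monomial, Finsupp.prod_fintype _ _ (fun _ => pow_zero _)]
    rfl
  have hP : ∀ v : (Σ i, ν i) → ℂ, MvPolynomial.eval v P = MvPolynomial.aeval (Sum.elim w v) Q := by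
    intro v
    rw [map_sum, MvPolynomial.aeval_def, MvPolynomial.eval₂_eq']
    refine Finset.sum_congr rfl fun u _ => ?_
    rw [hev, Fintype.prod_sum_type, mul_assoc]
    rfl
  have hsum : ∀ u ∈ Q.support, ∑ i, u (Sum.inl i) + ∑ i, u (Sum.inr i) ≤ d := by
    intro u hu
    have h1 := (MvPolynomial.le_totalDegree hu).trans hQd
    rw [Finsupp.sum_fintype _ _ (fun _ => rfl), Fintype.sum_sum_type] at h1
    exact h1
  refine ⟨hbox, P, ?_, fun s => ?_, ?_, q', hq', ?_⟩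
  · refine (MvPolynomial.totalDegree_finsetSum _ _).trans (Finset.sup_le fun u hu => ?_)
    refine (MvPolynomial.totalDegree_monomial_le _ _).trans ?_
    rw [Finsupp.sum_fintype _ _ (fun _ => rfl)]
    exact (Nat.le_add_left _ _).trans (hsum u hu)
  · rw [MvPolynomial.coeff_sum]
    refine V.sum_mem fun u hu => ?_
    rw [MvPolynomial.coeff_monomial]
    split_ifs
    · have h1 : ((Q.coeff u : ℚ) : ℂ) * ∏ i, w i ^ u (Sum.inl i) = (Q.coeff u) • ∏ i, w i ^ u (Sum.inl i) := by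
        rw [Rat.smul_def]
      rw [h1]
      refine V.smul_mem _ (Submodule.subset_span ?_)
      have h2 : ∑ i, u (Sum.inl i) ≤ d := (Nat.le_add_right _ _).trans (hsum u hu)
      exact ⟨fun i => ⟨u (Sum.inl i), Nat.lt_succ_of_le ((Finset.single_le_sum (f := fun i => u (Sum.inl i))
        (fun _ _ => Nat.zero_le _) (Finset.mem_univ i)).trans h2)⟩, rfl⟩
    · exact V.zero_mem
  · rw [hP]
    exact hQ0
  · rw [hP]
    exact hne

end

end Q207.HS
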